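import Pool.Agent.U728.KP.Stm

set_option autoImplicit false

/-! The strict asymptotic separation, from coverings of density `1.03`. -/

namespace Pool.Agent.U728.KP

open Pool.Agent.Results.MP_71830d_co.Separation Filter

theorem sSat_upper (hCOV : S_COV) (hUP : S_UP) :
    ∃ n₁ : ℕ, ∀ n ≥ n₁, (sSat n : ℝ) ≤ 3.09 * 2 ^ n := by
  obtain ⟨n₀, hn₀⟩ := hCOV
  refine ⟨2 * n₀ + 2, fun n hn => ?_⟩
  obtain ⟨a, b, hab, h1, h2, h3⟩ : ∃ a b : ℕ, n = a + b ∧ a ≤ b ∧ b ≤ a + 1 ∧ n₀ ≤ a :=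
    ⟨n / 2, n - n / 2, by omega, by omega, by omega, by omega⟩
  obtain ⟨N, hN, hN'⟩ := hn₀ a h3
  obtain ⟨M, hM, hM'⟩ := hn₀ b (h3.trans h1)
  have h := hUP a b N M hN hM
  rw [hab]
  refine h.trans ?_
  have ha : (0 : ℝ) ≤ a := Nat.cast_nonneg a
  have hb : (0 : ℝ) ≤ b := Nat.cast_nonneg b
  have h1' : (a : ℝ) ≤ b := by exact_mod_cast h1
  have h2' : (b : ℝ) ≤ a + 1 := by exact_mod_cast h2
  have pa : (0 : ℝ) < 2 ^ a := by positivity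
  have pb : (0 : ℝ) < 2 ^ b := by positivity
  have e1 : (N : ℝ) * (a + b / 2) ≤ 1.03 * 2 ^ a * 1.5 := by
    have h4 : (a : ℝ) + b / 2 ≤ 1.5 * (a + 1) := by linarith
    calc (N : ℝ) * (a + b / 2) ≤ N * (1.5 * (a + 1)) := mul_le_mul_of_nonneg_left h4 (Nat.cast_nonneg N)
      _ = (N * (a + 1)) * 1.5 := by ring
      _ ≤ 1.03 * 2 ^ a * 1.5 := mul_le_mul_of_nonneg_right hN' (by norm_num)
  have e2 : (M : ℝ) * (b + a / 2) ≤ 1.03 * 2 ^ b * 1.5 := by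
    have h4 : (b : ℝ) + a / 2 ≤ 1.5 * (b + 1) := by linarith
    calc (M : ℝ) * (b + a / 2) ≤ M * (1.5 * (b + 1)) := mul_le_mul_of_nonneg_left h4 (Nat.cast_nonneg M)
      _ = (M * (b + 1)) * 1.5 := by ring
      _ ≤ 1.03 * 2 ^ b * 1.5 := mul_le_mul_of_nonneg_right hM' (by norm_num)
  calc (N : ℝ) * 2 ^ b * (a + b / 2) + M * 2 ^ a * (b + a / 2)
      = (N * (a + b / 2)) * 2 ^ b + (M * (b + a / 2)) * 2 ^ a := by ring
    _ ≤ (1.03 * 2 ^ a * 1.5) * 2 ^ b + (1.03 * 2 ^ b * 1.5) * 2 ^ a :=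
        add_le_add (mul_le_mul_of_nonneg_right e1 pb.le) (mul_le_mul_of_nonneg_right e2 pa.le)
    _ = 3.09 * 2 ^ (a + b) := by rw [pow_add]; ring

theorem final (hCOV : S_COV) (hUP : S_UP) :
    (∃ n₁ : ℕ, ∀ n ≥ n₁, (sSat n : ℝ) ≤ 3.09 * 2 ^ n ∧ 3.1 * (2 : ℝ) ^ n ≤ satNum n) ∧
    limsup (fun n : ℕ => (((sSat n : ℝ) / 2 ^ n : ℝ) : EReal)) atTop <
      liminf (fun n : ℕ => (((satNum n : ℝ) / 2 ^ n : ℝ) : EReal)) atTop := by
  obtain ⟨n₁, h₁⟩ := sSat_upper hCOV hUP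
  have hlow : ∀ n ≥ 10 ^ 16, 3.1 * (2 : ℝ) ^ n ≤ satNum n := by
    intro n hn
    have h := sat_lower n hn
    norm_num at h ⊢
    linarith
  refine ⟨⟨n₁ + 10 ^ 16, fun n hn => ⟨h₁ n (by omega), hlow n (by omega)⟩⟩, ?_⟩
  have hA : limsup (fun n : ℕ => (((sSat n : ℝ) / 2 ^ n : ℝ) : EReal)) atTop ≤ ((3.09 : ℝ) : EReal) := by
    apply limsup_le_of_le
    · isBoundedDefault
    · filter_upwards [eventually_ge_atTop n₁] with n hn
      rw [EReal.coe_le_coe_iff, div_le_iff₀ (by positivity)]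
      exact h₁ n hn
  have hB : ((3.1 : ℝ) : EReal) ≤ liminf (fun n : ℕ => (((satNum n : ℝ) / 2 ^ n : ℝ) : EReal)) atTop := by
    apply le_liminf_of_le
    · isBoundedDefault
    · filter_upwards [eventually_ge_atTop (10 ^ 16)] with n hn
      rw [EReal.coe_le_coe_iff, le_div_iff₀ (by positivity)]
      exact hlow n hn
  refine hA.trans_lt (lt_of_lt_of_le ?_ hB)
  rw [EReal.coe_lt_coe_iff]
  norm_num

end Pool.Agent.U728.KP
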