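import Pool.Agent.Results.MP_71830d_co.Separation

set_option autoImplicit false

/-!
# Project KP: coverings of the cube of density near one and semi-saturation (MP_71830d_co, Question 2)

The starting hand-in Separation shows `sat(Q_n, Q_2) ≥ 3.1 * 2 ^ n` for all large `n` (`sat_lower`) and
`s-sat(Q_n, Q_2) ≤ 3 * 2 ^ n` for `n = 2 (2 ^ k - 1)` only. Goal: `s-sat(Q_n, Q_2) ≤ 3.09 * 2 ^ n` for ALL large `n`, so
`limsup s-sat(Q_n, Q_2) / 2 ^ n < liminf sat(Q_n, Q_2) / 2 ^ n`, the positive answer to Question 2. For this one needs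
coverings of radius one of the cube `Q_n` with at most `1.03 * 2 ^ n / (n + 1)` words, for all large `n`.
-/

namespace Pool.Agent.U728.KP

open Pool.Agent.Results.MP_71830d_co.Separation

/-- `C` is a covering of radius one of the words `ι → α` -/
def Cov {ι α : Type} [Fintype ι] [DecidableEq α] (C : Finset (ι → α)) : Prop :=
  ∀ x : ι → α, ∃ c ∈ C, hammingDist x c ≤ 1

/-- there is a covering of radius one with at most `N` words -/
def HasCov (ι α : Type) [Fintype ι] [DecidableEq α] (N : ℕ) : Prop :=
  ∃ C : Finset (ι → α), Cov C ∧ C.card ≤ N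

/-- **Package HAM** (15 minutes). The perfect Hamming code of length `p + 1` over `ZMod p` (transport to `Fin p`).
Proof. `C = {x : Fin (p+1) → ZMod p | x_p + ∑_{a < p} a x_a = 0 and ∑_{a < p} x_a = 0}` (coordinates `a < p` are the elements of
`ZMod p`; the last coordinate has the column `(1, 0)`, the coordinate `a` the column `(a, 1)`). The map
`x ↦ (x_p + ∑ a x_a, ∑ x_a)` is a surjective homomorphism onto `ZMod p × ZMod p`, so `|C| = p ^ (p+1) / p ^ 2`. For a syndrome
`(s, 0)` change the last coordinate by `-s`; for `(s, r)`, `r ≠ 0`, change the coordinate `a = s / r` by `-r`. -/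
def S_HAM : Prop := ∀ p : ℕ, p.Prime → HasCov (Fin (p + 1)) (Fin p) (p ^ (p - 1))

/-- **Package BLOW** (15 minutes). Larger alphabets.
Proof. Letters `(u, w)`, `u : ZMod v` (or `Fin v` with addition mod `v`), `w : Fin q`. Take all words with
`∑ u_i = 0` and `w ∈ C`: `v ^ (m-1) * |C|` words. Given `(u, w)`, some `c ∈ C` differs from `w` at most at one coordinate `i`
(any `i` if `c = w`); change `u_i` so that the sum is `0`: only the coordinate `i` has changed. -/
def S_BLOW : Prop := ∀ m v q N : ℕ, 0 < m → 0 < v → HasCov (Fin m) (Fin q) N →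
  HasCov (Fin m) (Fin (v * q)) (v ^ (m - 1) * N)

/-- **Package SURJ** (with EXT; 10 minutes). Smaller alphabets: take the image of the code under a surjection `Fin q' → Fin q`,
coordinate by coordinate. -/
def S_SURJ : Prop := ∀ m q q' N : ℕ, 0 < q → q ≤ q' → HasCov (Fin m) (Fin q') N → HasCov (Fin m) (Fin q) N

/-- **Package EXT** (with SURJ). Append `k` arbitrary coordinates to the words of the code. -/
def S_EXT : Prop := ∀ n k N : ℕ, HasCov (Fin n) Bool N → HasCov (Fin (n + k)) Bool (N * 2 ^ k)

/-- **Package SYND** (20 minutes). From the alphabet with `2 ^ t` letters to the binary alphabet.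
Proof. Let `V = Fin t → ZMod 2` (so `2 ^ t` letters), and index the binary coordinates of one block by the `2 ^ t - 1`
nonzero elements of `V`. The syndrome of a block `x` is `∑_{a ≠ 0, x_a = 1} a ∈ V`; flipping the coordinate `a` changes it by
`a`, and each syndrome has `2 ^ (2 ^ t - 1 - t)` blocks (the map is a surjective homomorphism; compare `synd`,
`synd_flp`, `card_code` in the starting file Separation). The new code is the set of all `m`-tuples of blocks whose
syndromes form a word of the code `C`. If the syndromes `s` of `x` differ from `c ∈ C` only at `i`, flip the coordinate `s_i - c_i` of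
the `i`-th block. Coordinates `Fin m × {a // a ≠ 0}` are transported to `Fin (m * (2 ^ t - 1))`. -/
def S_SYND : Prop := ∀ m t N : ℕ, 0 < t → HasCov (Fin m) (Fin (2 ^ t)) N →
  HasCov (Fin (m * (2 ^ t - 1))) Bool (N * 2 ^ (m * (2 ^ t - 1 - t)))

/-- coverings of density at most `1.03` for all large lengths -/
def S_COV : Prop := ∃ n₀ : ℕ, ∀ n ≥ n₀, ∃ N : ℕ, HasCov (Fin n) Bool N ∧ (N : ℝ) * (n + 1) ≤ 1.03 * 2 ^ n

/-- **Package NUM** (30 minutes; you may assume `S_HAM`, `S_BLOW`, `S_SURJ`, `S_EXT`, `S_SYND` as hypotheses).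
Proof. For a prime `p`, `t ≥ 1` and `v` with `2 ^ t ≤ v p`, `v ≤ 2 ^ t / p + 1` the first, second, third and fifth statement
give a covering of length `n₁ = (p+1)(2^t - 1)` with at most `N₁ = v ^ p * p ^ (p-1) * 2 ^ ((p+1)(2^t - 1 - t))` words.
As `v ^ p ≤ (2^t / p) ^ p (1 + p / 2^t) ^ p`, `N₁ ≤ 2 ^ n₁ * 2 ^ (-t) * p⁻¹ * (1 + p / 2^t) ^ p`. With `S_EXT`, for `n ≥ n₁` and
`n + 1 ≤ 1.02 * (p + 1) * 2 ^ t`, the covering of length `n` has `N (n+1) ≤ 1.02 * (p+1)/p * (1 + p/2^t)^p * 2 ^ n ≤ 1.03 * 2 ^ n` if
`2000 ≤ p ≤ 4100` and `t ≥ 40` (`(1 + p/2^t)^p ≤ exp (p^2/2^t)`). For the choice of `p`: take a list of primes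
`2003 = p_0 < p_1 < ... < p_r` with `p_(i+1) + 1 ≤ 1.019 (p_i + 1)` and `1.019 (p_r + 1) ≥ 2.001 (p_0 + 1)` (about 40 primes,
`norm_num` or `decide` proves primality). For large `n` let `t` be maximal with `(p_0 + 1)(2^t - 1) ≤ n` and then `i` maximal with
`(p_i + 1)(2^t - 1) ≤ n`. -/
def S_NUM : Prop := S_HAM → S_BLOW → S_SURJ → S_EXT → S_SYND → S_COV

/-- **Package UP** (25 minutes). Semi-saturated graphs from coverings.
Proof. Let `C`, `C'` be coverings of `Q_a`, `Q_b`. Identify `Fin (a + b) → Bool` with pairs (`Fin.append`, or `Fin.castAdd`, `Fin.natAdd`)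
and let `G` consist of all edges of `Q_(a+b)` with an end in `D = (C × Q_b) ∪ (Q_a × C')`. It is semi-saturated: if `x y` is an
edge in the direction `i` of the first part and `x, y ∉ D`, the second part of `x` is not in `C'` and has a neighbour in `C'` in a
direction `j`; with `w = x + e_j`, `z = y + e_j` in `D` the edges `y z`, `z w`, `w x` are in `G`; the same for the second part with
`C`. The number of edges: an edge with an end in `C × Q_b` is either in a direction of the first part (at most `|C| 2^b a` such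
edges) or in a direction of the second part, then both ends are in `C × Q_b` (`|C| b 2^(b-1)` edges); the same for `Q_a × C'`. The proof of
`upper` in the starting file Separation does this for Hamming codes (with `flp`, `sum_deg`). -/
def S_UP : Prop := ∀ a b N M : ℕ, HasCov (Fin a) Bool N → HasCov (Fin b) Bool M →
  (sSat (a + b) : ℝ) ≤ N * 2 ^ b * (a + b / 2) + M * 2 ^ a * (b + a / 2)

end Pool.Agent.U728.KP
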